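import Mathlib
import Pool.Agent.W431.Frob.Final
import Pool.Agent.TH130.FP.FinalA

/-!
# Powers of generic forms against generic forms, to leading order

Fix `D` and `ε > 0`. For all large `n` and for **all** `r`, `d ≥ 1`, `k ≥ 1`, the ideal generated by
the `k`-th powers of `r` generic forms of degree `d` in `n` variables has, in every degree `j ≤ D`,
the dimension of the ideal generated by any `r` forms of degree `d k`, up to an error of at most
`ε * n ^ j`. The error is `O (n ^ (j - 1))` if the coefficients of the series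
`(1 - t ^ (d k)) ^ r / (1 - t) ^ n` up to degree `j` are at least `ε * n ^ i`. There is no error,
and the ideal contains all forms of degree `j`, as soon as some coefficient up to degree `j` is at
most `- ε * n ^ i`.
-/

set_option autoImplicit false

namespace Pool.Agent.Results.MP_e0014e_ag.LeadingOrder

open MvPolynomial

/-- The dimension of the degree `j` part of the ideal generated by the `f i`. -/
noncomputable def dimI {n r : ℕ} (f : Fin r → MvPolynomial (Fin n) ℂ) (j : ℕ) : ℕ :=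
  Module.finrank ℂ
    ↥(MvPolynomial.homogeneousSubmodule (Fin n) ℂ j ⊓
      (Ideal.span (Set.range f)).restrictScalars ℂ)

/-- The coefficient of `t ^ j` in `(1 - t) ^ (-n) * (1 - t ^ e) ^ r`. -/
noncomputable def co (n r e j : ℕ) : ℤ :=
  PowerSeries.coeff j
    ((PowerSeries.mk fun _ => (1 : ℤ)) ^ n * (1 - PowerSeries.X ^ e) ^ r)

lemma dimI_eq {n r : ℕ} {e : Fin r → ℕ} {f : Fin r → MvPolynomial (Fin n) ℂ}
    (hf : ∀ i, (f i).IsHomogeneous (e i)) (j : ℕ) :
    (dimI f j : ℤ) = H350MG.gj (Fin n) j - H350MG.qd (H350MG.fList e f) j := by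
  unfold dimI H350MG.qd
  rw [inf_comm, H350MG.span_inf_eq hf j]
  ring

/-- The `k`-th powers of generic forms of degree `d` generate, in degrees at most `D`, as much as any
forms of degree `d k`, to leading order. -/
theorem result (D : ℕ) (ε : ℝ) (hε : 0 < ε) :
    ∃ (C : ℝ) (n₀ : ℕ), ∀ n r d k : ℕ, n₀ ≤ n → 1 ≤ d → 1 ≤ k →
      ∃ P : MvPolynomial (Σ _ : Fin r, {m : Fin n →₀ ℕ // Finsupp.degree m = d}) ℂ, P ≠ 0 ∧
        ∀ g : Fin r → MvPolynomial (Fin n) ℂ, (∀ i, (g i).IsHomogeneous d) →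
          MvPolynomial.eval
              (fun x : (Σ _ : Fin r, {m : Fin n →₀ ℕ // Finsupp.degree m = d}) =>
                (g x.1).coeff x.2.1) P ≠ 0 →
          ∀ h : Fin r → MvPolynomial (Fin n) ℂ, (∀ i, (h i).IsHomogeneous (d * k)) →
            ∀ j : ℕ, j ≤ D →
              (dimI h j : ℝ) ≤ (dimI (fun i => g i ^ k) j : ℝ) + ε * (n : ℝ) ^ j ∧
              ((∀ i ≤ j, ε * (n : ℝ) ^ i ≤ (co n r (d * k) i : ℝ)) →
                (n : ℝ) * ((dimI h j : ℝ) - (dimI (fun i => g i ^ k) j : ℝ)) ≤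
                  C * (n : ℝ) ^ j) ∧
              ((∃ i ≤ j, (co n r (d * k) i : ℝ) ≤ -(ε * (n : ℝ) ^ i)) →
                dimI (fun i => g i ^ k) j =
                  Module.finrank ℂ (MvPolynomial.homogeneousSubmodule (Fin n) ℂ j) ∧
                dimI h j ≤ dimI (fun i => g i ^ k) j) := by
  classical
  obtain ⟨e, he0, heε⟩ := exists_rat_btwn (show (0 : ℝ) < ε / 2 by positivity)
  have he : 0 < e := by exact_mod_cast he0
  obtain ⟨C, n0, hC0, hn0, H⟩ := Pool.Agent.TH130.FP.main_abs D e he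
  obtain ⟨C', n0', hC0', hn0', H'⟩ := Pool.Agent.W431.Frob.main_qd D e he
  refine ⟨((C + C' : ℚ) : ℝ), n0 + n0', ?_⟩
  intro n r d k hn hd hk
  have hdk : 1 ≤ d * k := Nat.mul_pos hd hk
  obtain ⟨Φ, hΦ0, hΦ⟩ := H ℂ n (by omega) r (fun _ => d * k) (fun _ => hdk)
    (H350MG.Cf (Fin n) fun _ : Fin r => d) (fun c i => H350MG.fc c i ^ k)
    (fun c i => Pool.Agent.TH130.FP.fcpow_hom (q := fun _ => k) c i)
    (fun F hF j => Pool.Agent.TH130.FP.gen_qd_pow (fun _ => d) (fun _ => k) F hF j)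
  refine ⟨Φ, hΦ0, ?_⟩
  intro g hg hgΦ h hh j hj
  have h1 := hΦ _ hgΦ j hj
  have h2 : H350MG.fc (fun x : H350MG.Cf (Fin n) (fun _ : Fin r => d) => (g x.1).coeff x.2.1) = g :=
    funext fun i => H350MG.fc_coeff (d := fun _ => d) hg i
  simp only [h2] at h1
  -- generic forms
  obtain ⟨c, hc1, hc2⟩ := ((H' ℂ n (by omega) r (fun _ => d * k) (fun _ => hdk)).and
    (Pool.Agent.W431.Frob.gen_qd (K := ℂ) (d := fun _ : Fin r => d * k) (F := h) hh j)).exists
  have h1' := hc1 j hj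
  have hn1 : 1 ≤ n := by omega
  have hnR : (0 : ℝ) < n := by exact_mod_cast hn1
  have hE : ∀ i, H350MG.E (H350MG.gj (Fin n)) (List.ofFn fun _ : Fin r => d * k) i =
      co n r (d * k) i := by
    intro i
    rw [H350MG.E_ofFn_series n hn1]
    unfold co
    rw [Finset.prod_const, Finset.card_univ, Fintype.card_fin]
  simp only [hE] at h1 h1'
  obtain ⟨u, hu⟩ : ∃ u : ℤ, u = H350MG.qd (H350MG.fList (fun _ : Fin r => d * k)
    (fun i => g i ^ k)) j := ⟨_, rfl⟩
  obtain ⟨w, hw⟩ : ∃ w : ℤ, w = H350MG.qd (H350MG.fList (fun _ : Fin r => d * k)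
    (H350MG.fc c)) j := ⟨_, rfl⟩
  obtain ⟨x, hx⟩ : ∃ x : ℤ, x = H350MG.qd (H350MG.fList (fun _ : Fin r => d * k) h) j := ⟨_, rfl⟩
  have hwx : w ≤ x := by
    rw [hw, hx]
    exact hc2
  have hdg : (dimI (fun i => g i ^ k) j : ℤ) = H350MG.gj (Fin n) j - u := by
    rw [hu]
    exact dimI_eq (e := fun _ : Fin r => d * k) (fun i => (hg i).pow k) j
  have hdh : (dimI h j : ℤ) = H350MG.gj (Fin n) j - x := by
    rw [hx]
    exact dimI_eq (e := fun _ : Fin r => d * k) hh j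
  rw [← hu] at h1
  rw [← hw] at h1'
  have hdiff : (dimI h j : ℝ) - (dimI (fun i => g i ^ k) j : ℝ) = (u : ℝ) - (x : ℝ) := by
    have h3 : ((dimI h j : ℤ) : ℝ) - ((dimI (fun i => g i ^ k) j : ℤ) : ℝ) = (u : ℝ) - (x : ℝ) := by
      rw [hdg, hdh]; push_cast; ring
    exact_mod_cast h3
  have hwx' : (w : ℝ) ≤ (x : ℝ) := by exact_mod_cast hwx
  obtain ⟨a3, a4, a5, a6⟩ := h1
  obtain ⟨b3, b4, b5, b6⟩ := h1'
  have hle : ∀ i, (e : ℝ) * (n : ℝ) ^ i ≤ ε / 2 * (n : ℝ) ^ i := fun i =>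
    mul_le_mul_of_nonneg_right heε.le (by positivity)
  have hpw : ∀ i, (0 : ℝ) < (n : ℝ) ^ i := fun i => by positivity
  refine ⟨?_, ?_, ?_⟩
  · by_cases hp : ∀ i ≤ j, 0 < co n r (d * k) i
    · have h7 : |(u : ℝ) - (co n r (d * k) j : ℝ)| ≤ (e : ℝ) * (n : ℝ) ^ j := by
        exact_mod_cast a3 hp
      have h8 : |(w : ℝ) - (co n r (d * k) j : ℝ)| ≤ (e : ℝ) * (n : ℝ) ^ j := by
        exact_mod_cast b3 hp
      have h9 := (abs_le.1 h7).2
      have h10 := (abs_le.1 h8).1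
      have h11 := hle j
      linarith
    · have h7 : |(u : ℝ)| ≤ (e : ℝ) * (n : ℝ) ^ j := by
        exact_mod_cast a4 (by push Not at hp; exact hp)
      have h8 : |(w : ℝ)| ≤ (e : ℝ) * (n : ℝ) ^ j := by
        exact_mod_cast b4 (by push Not at hp; exact hp)
      have h9 := (abs_le.1 h7).2
      have h10 := (abs_le.1 h8).1
      have h11 := hle j
      linarith
  · intro hreg
    have hreg' : ∀ i ≤ j, e * (n : ℚ) ^ i ≤ (co n r (d * k) i : ℚ) := by
      intro i hi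
      have h6 : ε / 2 * (n : ℝ) ^ i ≤ ε * (n : ℝ) ^ i :=
        mul_le_mul_of_nonneg_right (by linarith) (hpw i).le
      have h7 := (hle i).trans (h6.trans (hreg i hi))
      exact_mod_cast h7
    have h7 : (n : ℝ) * |(u : ℝ) - (co n r (d * k) j : ℝ)| ≤ (C : ℝ) * (n : ℝ) ^ j := by
      exact_mod_cast a5 hreg'
    have h8 : (n : ℝ) * |(w : ℝ) - (co n r (d * k) j : ℝ)| ≤ (C' : ℝ) * (n : ℝ) ^ j := by
      exact_mod_cast b5 hreg'
    rw [hdiff]
    have h9 : (n : ℝ) * ((u : ℝ) - (x : ℝ)) ≤ (n : ℝ) * |(u : ℝ) - (co n r (d * k) j : ℝ)| +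
        (n : ℝ) * |(w : ℝ) - (co n r (d * k) j : ℝ)| := by
      rw [← mul_add]
      refine mul_le_mul_of_nonneg_left ?_ hnR.le
      have h10 := le_abs_self ((u : ℝ) - (co n r (d * k) j : ℝ))
      have h11 := neg_abs_le ((w : ℝ) - (co n r (d * k) j : ℝ))
      linarith
    refine h9.trans ((add_le_add h7 h8).trans (le_of_eq ?_))
    push_cast
    ring
  · rintro ⟨i, hi, hEi⟩
    have h7 : (co n r (d * k) i : ℝ) ≤ -((e : ℝ) * (n : ℝ) ^ i) := by
      have h6 : ε / 2 * (n : ℝ) ^ i ≤ ε * (n : ℝ) ^ i :=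
        mul_le_mul_of_nonneg_right (by linarith) (hpw i).le
      have := hle i
      linarith
    have h8 : u = 0 := a6 ⟨i, hi, by exact_mod_cast h7⟩
    rw [h8, sub_zero] at hdg
    have h9 : dimI (fun i => g i ^ k) j =
        Module.finrank ℂ (MvPolynomial.homogeneousSubmodule (Fin n) ℂ j) := by
      have h10 : ((dimI (fun i => g i ^ k) j : ℕ) : ℤ) =
          (Module.finrank ℂ (MvPolynomial.homogeneousSubmodule (Fin n) ℂ j) : ℤ) := by
        rw [hdg, ← H350MG.finrank_Rj' (𝕜 := ℂ) j]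
      exact_mod_cast h10
    refine ⟨h9, ?_⟩
    rw [h9]
    unfold dimI
    exact Submodule.finrank_mono inf_le_left

end Pool.Agent.Results.MP_e0014e_ag.LeadingOrder
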