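import Pool.Agent.TH176.RK.Fam3

/-!
# Powers of at least `3 ^ (n - 1)` generic forms in `n` variables

Let `n ≥ 3`, `r ≥ 3 ^ (n - 1)`, `d, k ≥ 1` and `ρ = r ^ (1 / (n - 1))`. For `r` generic forms `g_i`
of degree `d` in `n` variables over a field of characteristic zero the Hilbert function of the
quotient by the ideal generated by the powers `g_i ^ k` is the least possible one for `r` forms of
degree `d k`, in all degrees with the exception of at most `n - 1 + ⌊(2 n - 5) / (ρ - 1)⌋`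
consecutive ones.

The forms `g_i` are specialised to powers of linear forms.
-/

set_option autoImplicit false

namespace Pool.Agent.Results.MP_e0014e_ag.ManyForms

open MvPolynomial

/-- The Hilbert function of the quotient of `K[x_1, …, x_n]` by the ideal generated by the forms
`f i`, in degree `j`. -/
noncomputable def hilb {K : Type} [Field K] {n r : ℕ} (f : Fin r → MvPolynomial (Fin n) K)
    (j : ℕ) : ℤ :=
  (Module.finrank K (MvPolynomial.homogeneousSubmodule (Fin n) K j) : ℤ) -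
    (Module.finrank K
      ↥(Submodule.restrictScalars K (Ideal.span (Set.range f)) ⊓
        MvPolynomial.homogeneousSubmodule (Fin n) K j) : ℤ)

/-- The powers of at least `3 ^ (n - 1)` generic forms. -/
theorem result (n : ℕ) (hn : 3 ≤ n) (K : Type) [Field K] [CharZero K] (r d k : ℕ)
    (hr : 3 ^ (n - 1) ≤ r) (hd : 1 ≤ d) (hk : 1 ≤ k) :
    ∃ j₀ : ℕ, ∃ P : MvPolynomial (Σ _ : Fin r, {m : Fin n →₀ ℕ // Finsupp.degree m = d}) K,
      P ≠ 0 ∧
      ∀ g : Fin r → MvPolynomial (Fin n) K, (∀ i, (g i).IsHomogeneous d) →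
        MvPolynomial.eval
            (fun q : (Σ _ : Fin r, {m : Fin n →₀ ℕ // Finsupp.degree m = d}) =>
              (g q.1).coeff q.2.1) P ≠ 0 →
        ∀ j : ℕ,
          ((r : ℝ) ^ ((1 : ℝ) / (n - 1)) * (j + n - 1 - (d * k : ℕ)) + (n - 3) < j ∨
            (j : ℝ) < (r : ℝ) ^ ((1 : ℝ) / (n - 1)) * (j + 1 - (d * k : ℕ)) ∨
            j < j₀ ∨ (j₀ : ℝ) + (n - 2) +
              (2 * n - 5) / ((r : ℝ) ^ ((1 : ℝ) / (n - 1)) - 1) < j) →
          ∀ f : Fin r → MvPolynomial (Fin n) K, (∀ i, (f i).IsHomogeneous (d * k)) →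
            hilb (fun i => g i ^ k) j ≤ hilb f j := by
  obtain ⟨l, rfl⟩ : ∃ l, n = l + 3 := ⟨n - 3, by omega⟩
  have e3 : l + 3 - 1 = l + 2 := rfl
  rw [e3] at hr
  have hr0 : 0 < r := lt_of_lt_of_le (by positivity) hr
  obtain ⟨h0, hu, -⟩ := Pool.Agent.H932R5.pos_root (E := l + 1) hr0
  have c1 : (((l + 1 : ℕ) : ℝ) + 1) = ((l + 3 : ℕ) : ℝ) - 1 := by push_cast; ring
  rw [c1] at h0 hu
  obtain ⟨u, hu1⟩ : ∃ u : ℝ, (r : ℝ) ^ ((1 : ℝ) / (((l + 3 : ℕ) : ℝ) - 1)) = u := ⟨_, rfl⟩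
  rw [hu1] at h0 hu
  have hu3 : 3 ≤ u := by
    by_contra hcon
    push Not at hcon
    have h1 : u ^ (l + 1 + 1) < 3 ^ (l + 1 + 1) := pow_lt_pow_left₀ hcon h0.le (by omega)
    rw [hu] at h1
    have h2 : r < 3 ^ (l + 2) := by exact_mod_cast h1
    exact absurd hr (not_le.2 h2)
  obtain ⟨j₀, P, hP, hP2⟩ := Pool.Agent.TH176.RK.pow_forms_min l K r d k u hu3 hu hd hk
  refine ⟨j₀, P, hP, fun g hg hgP j hj f hf => ?_⟩
  rw [hu1] at hj
  have d1 : (j : ℝ) + ((l + 3 : ℕ) : ℝ) - 1 - (d * k : ℕ) =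
      j + 1 - (d * k : ℕ) + l + 1 := by push_cast; ring
  have d2 : ((l + 3 : ℕ) : ℝ) - 3 = l := by push_cast; ring
  have d3 : ((l + 3 : ℕ) : ℝ) - 2 = l + 1 := by push_cast; ring
  have d4 : 2 * ((l + 3 : ℕ) : ℝ) - 5 = 2 * l + 1 := by push_cast; ring
  rw [d1, d2, d3, d4] at hj
  exact hP2 g hg hgP j hj f hf

end Pool.Agent.Results.MP_e0014e_ag.ManyForms
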