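import Mathlib
import Pool.Agent.W431.Frob.Final
import Pool.Agent.TH130.PE.Forms

/-!
# Powers of generic forms against generic forms, for a positive density of powers

Fix `D`. There is a `c > 0` such that for **all** `n ≥ 1`, all `d, k ≥ 1` and all
`r ≤ c * n ^ (d k)` the ideal generated by the `k`-th powers of `r` generic forms of degree `d` in
`n` variables is, in every degree `j ≤ D`, at least as large as the ideal generated by **any** `r`
forms of degree `d k`; its codimension is the coefficient of `t ^ j` in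
`(1 - t ^ (d k)) ^ r / (1 - t) ^ n`.
-/

set_option autoImplicit false

namespace Pool.Agent.Results.MP_e0014e_ag.PositiveDensity

open MvPolynomial

/-- The dimension of the degree `j` part of the ideal generated by the `f i`. -/
noncomputable def dimI {n r : ℕ} (f : Fin r → MvPolynomial (Fin n) ℂ) (j : ℕ) : ℕ :=
  Module.finrank ℂ
    ↥(MvPolynomial.homogeneousSubmodule (Fin n) ℂ j ⊓
      (Ideal.span (Set.range f)).restrictScalars ℂ)

/-- The coefficient of `t ^ j` in `(1 - t) ^ (-n) * (1 - t ^ e) ^ r`. -/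
noncomputable def co (n r e j : ℕ) : ℤ :=
  PowerSeries.coeff j
    ((PowerSeries.mk fun _ => (1 : ℤ)) ^ n * (1 - PowerSeries.X ^ e) ^ r)

lemma dimI_eq {n r : ℕ} {e : Fin r → ℕ} {f : Fin r → MvPolynomial (Fin n) ℂ}
    (hf : ∀ i, (f i).IsHomogeneous (e i)) (j : ℕ) :
    (dimI f j : ℤ) = H350MG.gj (Fin n) j - H350MG.qd (H350MG.fList e f) j := by
  unfold dimI H350MG.qd
  rw [inf_comm, H350MG.span_inf_eq hf j]
  ring

/-- The `k`-th powers of generic forms of degree `d` generate, in degrees at most `D`, as much as any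
forms of degree `d k`, for `r ≤ c * n ^ (d * k)`. -/
theorem result (D : ℕ) :
    ∃ c : ℝ, 0 < c ∧ ∀ n r d k : ℕ, 1 ≤ n → 1 ≤ d → 1 ≤ k →
      (r : ℝ) ≤ c * (n : ℝ) ^ (d * k) →
      ∃ P : MvPolynomial (Σ _ : Fin r, {m : Fin n →₀ ℕ // Finsupp.degree m = d}) ℂ, P ≠ 0 ∧
        ∀ g : Fin r → MvPolynomial (Fin n) ℂ, (∀ i, (g i).IsHomogeneous d) →
          MvPolynomial.eval
              (fun x : (Σ _ : Fin r, {m : Fin n →₀ ℕ // Finsupp.degree m = d}) =>
                (g x.1).coeff x.2.1) P ≠ 0 →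
          ∀ j : ℕ, j ≤ D →
            (Module.finrank ℂ (MvPolynomial.homogeneousSubmodule (Fin n) ℂ j) : ℤ) -
              (dimI (fun i => g i ^ k) j : ℤ) = co n r (d * k) j ∧
            ∀ h : Fin r → MvPolynomial (Fin n) ℂ, (∀ i, (h i).IsHomogeneous (d * k)) →
              dimI h j ≤ dimI (fun i => g i ^ k) j := by
  classical
  obtain ⟨c, hc, H⟩ := TH130PE.main_eq ℂ D
  refine ⟨c, hc, ?_⟩
  intro n r d k hn hd hk hr
  have hdk : 1 ≤ d * k := Nat.mul_pos hd hk
  obtain ⟨hs, P0, hP0⟩ := H n r (d * k) hn hdk hr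
  have hdk' : ∀ _i : Fin r, 0 < d * k := fun _ => hdk
  obtain ⟨Φ, hΦ0, hΦ⟩ := TH130PE.formpow_exact (fun _ => d) (fun _ => k) hdk' hP0
  -- the same for forms of degree `d * k`
  have hdk1 : (fun _ : Fin r => d * k * 1) = fun _ : Fin r => d * k := by
    funext _
    exact mul_one _
  obtain ⟨Φ', hΦ0', hΦ'⟩ := TH130PE.formpow_exact (P0 := P0) (D := D) (fun _ : Fin r => d * k)
    (fun _ => 1) (fun _ => by rw [mul_one]; exact hdk) (by rw [hdk1]; exact hP0)
  refine ⟨Φ, hΦ0, ?_⟩
  intro g hg hgΦ j hj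
  have h1 := hΦ _ hgΦ j hj
  have h2 : H350MG.fc (fun x : H350MG.Cf (Fin n) (fun _ : Fin r => d) => (g x.1).coeff x.2.1) = g :=
    funext fun i => H350MG.fc_coeff (d := fun _ => d) hg i
  simp only [h2] at h1
  have hE : ∀ i, H350MG.E (H350MG.gj (Fin n)) (List.ofFn fun _ : Fin r => d * k) i =
      co n r (d * k) i := by
    intro i
    rw [H350MG.E_ofFn_series n hn]
    unfold co
    rw [Finset.prod_const, Finset.card_univ, Fintype.card_fin]
  have hdg : (dimI (fun i => g i ^ k) j : ℤ) = H350MG.gj (Fin n) j - co n r (d * k) j := by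
    rw [← hE, ← h1]
    exact dimI_eq (e := fun _ : Fin r => d * k) (fun i => (hg i).pow k) j
  refine ⟨?_, ?_⟩
  · rw [hdg, ← H350MG.finrank_Rj' (𝕜 := ℂ) j]
    change (Module.finrank ℂ (MvPolynomial.homogeneousSubmodule (Fin n) ℂ j) : ℤ) -
      ((Module.finrank ℂ (MvPolynomial.homogeneousSubmodule (Fin n) ℂ j) : ℤ) - _) = _
    ring
  · intro h hh
    have hG : Pool.Agent.W431.Frob.Gen ℂ
        (fun c : H350MG.Cf (Fin n) (fun _ : Fin r => d * k) → ℂ =>
          H350MG.qd (H350MG.fList (fun _ : Fin r => d * k) (H350MG.fc c)) j =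
            co n r (d * k) j) := by
      refine ⟨Φ', hΦ0', fun c hc => ?_⟩
      have h3 := hΦ' c hc j hj
      simp only [mul_one, pow_one] at h3
      rw [hE] at h3
      exact h3
    obtain ⟨c, hc1, hc2⟩ := (hG.and (Pool.Agent.W431.Frob.gen_qd (K := ℂ)
      (d := fun _ : Fin r => d * k) (F := h) hh j)).exists
    have hdh : (dimI h j : ℤ) = H350MG.gj (Fin n) j -
        H350MG.qd (H350MG.fList (fun _ : Fin r => d * k) h) j :=
      dimI_eq (e := fun _ : Fin r => d * k) hh j
    have h4 : (dimI h j : ℤ) ≤ (dimI (fun i => g i ^ k) j : ℤ) := by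
      rw [hdh, hdg, ← hc1]
      linarith
    exact_mod_cast h4

end Pool.Agent.Results.MP_e0014e_ag.PositiveDensity
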