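import Mathlib
import Pool.Agent.TH750.FI3.Forms
import Pool.Agent.TH750.FI3.Inp

/-!
# Powers of generic forms in three variables

For every `r ≥ 37`, for `r = 13` and `r = 21`, every `d ≥ 1` and every `k ≥ 1` the `k`-th powers of
`r` generic forms of degree `d` in three variables over `ℂ` have the Hilbert series of `r` generic forms of degree `d k`: in
every degree the graded piece of the ideal `(g_1 ^ k, …, g_r ^ k)` is at least as large as for ANY
`r` forms of degree `d k`.

The statement is the one of the problem's conjecture for `n = 3` and these `r`.  The forms are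
specialised to powers of general linear forms, whose power ideals are treated by apolarity and the
theorems that uniform linear systems of plane curves through that many general points have the
expected dimension.
-/

set_option autoImplicit false

namespace Pool.Agent.Results.MP_e0014e_ag.ThreeVariables

/-- Three variables, `r ≥ 37` or `r = 13, 21`: on a nonempty Zariski-open set of `r`-tuples of forms
`g` of degree `d`, each degree `j` part of `(g_1 ^ k, …, g_r ^ k)` is at least as large as for any
`r` forms of degree `d k`. -/
theorem result :
    ∀ r d k : ℕ, (37 ≤ r ∨ r = 13 ∨ r = 21) → 1 ≤ d → 1 ≤ k →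
      ∃ P : MvPolynomial (Fin r × (Fin 3 →₀ ℕ)) ℂ,
        (∃ g₀ : Fin r → MvPolynomial (Fin 3) ℂ,
            (∀ i, (g₀ i).IsHomogeneous d) ∧
            MvPolynomial.eval
              (fun p : Fin r × (Fin 3 →₀ ℕ) => MvPolynomial.coeff p.2 (g₀ p.1)) P ≠ 0) ∧
        ∀ g : Fin r → MvPolynomial (Fin 3) ℂ,
          (∀ i, (g i).IsHomogeneous d) →
          MvPolynomial.eval
              (fun p : Fin r × (Fin 3 →₀ ℕ) => MvPolynomial.coeff p.2 (g p.1)) P ≠ 0 →
          ∀ h : Fin r → MvPolynomial (Fin 3) ℂ,
            (∀ i, (h i).IsHomogeneous (d * k)) →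
            ∀ j : ℕ,
              Module.finrank ℂ
                  (↥(MvPolynomial.homogeneousSubmodule (Fin 3) ℂ j ⊓
                    (Ideal.span (Set.range h)).restrictScalars ℂ)) ≤
                Module.finrank ℂ
                  (↥(MvPolynomial.homogeneousSubmodule (Fin 3) ℂ j ⊓
                    (Ideal.span (Set.range (fun i => g i ^ k))).restrictScalars ℂ)) := by
  intro r d k hr hd hk
  obtain ⟨P, hP, hP'⟩ := Pool.Agent.TH750.FI3.main_forms (by omega) hd hk
    (fun m hm _ => Pool.Agent.TH750.FI3.uniform_input hr hm)
  exact ⟨P, hP, fun g hg hgP => (hP' g hg hgP).2.2⟩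

end Pool.Agent.Results.MP_e0014e_ag.ThreeVariables
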